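import Pool.Agent.Lib.helper21.ABFin

/-! The entropy of `f_{a,b}` is continuous on the whole parameter set. -/

set_option autoImplicit false

namespace Pool.Agent.Results.MP_aaf517_an.Cont

open Pool.Agent.Lib.Helper21.ABDef Pool.Agent.Lib.Helper21.ABFin

theorem result : ∃ h : ℝ × ℝ → ℝ, (∀ a b, Par a b → HasEnt a b (h (a, b))) ∧ ContinuousOn h {p | Par p.1 p.2} :=
  ⟨ent, fun a b _ => hent a b, cont⟩

end Pool.Agent.Results.MP_aaf517_an.Cont
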